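import Mathlib

/-!
Integer core of the hyperquotient theorem.
-/

open Finset

namespace Pool.Agent.HYQ83

variable {ι : Type} [Fintype ι] [DecidableEq ι]

/-- integer weight of an exponent -/
def W (β : ι → ℤ) (m : ι → ℕ) : ℤ := ∑ i, β i * m i

lemma W_mod (β β' : ι → ℤ) (r : ℤ) (h : ∀ i, r ∣ β i - β' i) (m : ι → ℕ) :
    r ∣ W β m - W β' m := by
  unfold W
  rw [← Finset.sum_sub_distrib]
  refine Finset.dvd_sum fun i _ => ?_
  have := Dvd.dvd.mul_right (h i) (m i : ℤ)
  rwa [sub_mul] at this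

lemma W_add (β β' : ι → ℤ) (m : ι → ℕ) : W (fun i => β i + β' i) m = W β m + W β' m := by
  unfold W; rw [← Finset.sum_add_distrib]; exact Finset.sum_congr rfl fun i _ => by ring

lemma W_pos (β : ι → ℤ) (hβ : ∀ i, 0 < β i) (m : ι → ℕ) (hm : ∃ i, 0 < m i) : 0 < W β m := by
  obtain ⟨i, hi⟩ := hm
  unfold W
  refine Finset.sum_pos' (fun j _ => mul_nonneg (hβ j).le (by positivity)) ⟨i, mem_univ i, ?_⟩
  exact mul_pos (hβ i) (by exact_mod_cast hi)

lemma le_W (β : ι → ℤ) (hβ : ∀ i, 0 < β i) (m : ι → ℕ) (i : ι) : β i * m i ≤ W β m := by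
  unfold W
  exact Finset.single_le_sum (f := fun j => β j * (m j : ℤ))
    (fun j _ => mul_nonneg (hβ j).le (by positivity)) (mem_univ i)

/-- split off two indices -/
lemma sum_two (g : ι → ℤ) {i j : ι} (hij : i ≠ j) :
    ∑ l, g l = g i + g j + ∑ l ∈ (univ.erase i).erase j, g l := by
  rw [← Finset.add_sum_erase univ g (mem_univ i),
    ← Finset.add_sum_erase (univ.erase i) g (mem_erase.2 ⟨hij.symm, mem_univ j⟩)]
  ring

lemma no_div {r x : ℤ} (h0 : 0 < x) (h1 : x < r) (h : r ∣ x) : False := by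
  have := Int.le_of_dvd h0 h
  omega

/-- the two pure monomials case: `s p + (r - t) q' = r` contradicts a monomial `w` with
`w i + w j ≤ 1` -/
lemma pure_case {r s t p q' x y : ℤ} (hs : 0 < s) (ht : 0 < r - t)
    (hp : 2 ≤ p) (hq : 2 ≤ q') (he : s * p + (r - t) * q' = r) (hx : 0 ≤ x) (hy : 0 ≤ y)
    (hxy : x + y ≤ 1) (hd : r ∣ (s * x + t * y) - s * p) : False := by
  have h1 : 0 < s * p := by positivity
  have h2 : 0 < (r - t) * q' := by positivity
  rcases (by omega : (x = 0 ∧ y = 0) ∨ (x = 1 ∧ y = 0) ∨ (x = 0 ∧ y = 1)) with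
    ⟨rfl, rfl⟩ | ⟨rfl, rfl⟩ | ⟨rfl, rfl⟩
  · refine no_div (r := r) h1 (by linarith) ?_
    have := (dvd_neg (α := ℤ)).2 hd
    simpa using this
  · have h3 : 0 < s * (p - 1) := mul_pos hs (by omega)
    have h4 : s * (p - 1) < r := by nlinarith
    refine no_div (r := r) h3 h4 ?_
    have h5 := (dvd_neg (α := ℤ)).2 hd
    have h6 : -((s * 1 + t * 0) - s * p) = s * (p - 1) := by ring
    rwa [h6] at h5
  · have h3 : 0 < (r - t) + s * p := by positivity
    have h4 : (r - t) + s * p < r := by nlinarith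
    refine no_div (r := r) h3 h4 ?_
    have h5 := dvd_sub (dvd_refl r) hd
    have h6 : r - ((s * 0 + t * 1) - s * p) = (r - t) + s * p := by ring
    rwa [h6] at h5

lemma pow_mod {k : Type} [Field k] {ε : k} {r : ℕ} (hr : 0 < r) (hε : IsPrimitiveRoot ε r)
    (x y : ℕ) : ε ^ x = ε ^ y ↔ x ≡ y [MOD r] := by
  have h0 : ε ≠ 0 := by
    rintro rfl
    have h1 := hε.pow_eq_one
    rw [zero_pow hr.ne'] at h1
    exact zero_ne_one h1
  have h1 : orderOf (Units.mk0 ε h0) = r := by
    rw [← orderOf_units, Units.val_mk0]; exact hε.eq_orderOf.symm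
  have h2 := pow_eq_pow_iff_modEq (x := Units.mk0 ε h0) (n := x) (m := y)
  rw [h1] at h2
  rw [← h2, Units.ext_iff]
  simp

/-- the core -/
theorem core (N r : ℤ) (hr : 0 < r) (hcard : (Fintype.card ι : ℤ) = N + 1)
    (a : ι → ℤ) (c : ℤ) (S : Set (ι → ℕ)) (hS : S.Nonempty)
    (hmult : ∀ m ∈ S, 2 ≤ ∑ i, m i)
    (hsemi : ∀ m ∈ S, r ∣ W a m - c)
    (hrefl : ∀ i, ¬ r ∣ a i → ∃ l, l ≠ i ∧ ¬ r ∣ a l)
    (hnorm : ∀ i j, i ≠ j → ∃ m ∈ S, m i + m j ≤ 1)
    (β β' : ι → ℤ)
    (hβ : ∀ i, β i = if r ∣ a i then r else a i % r)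
    (hβ' : ∀ i, β' i = if r ∣ a i then r else r - a i % r)
    (u u' : ι → ℕ) (hu : u ∈ S) (hu' : u' ∈ S)
    (h : r * (N - 1) + W β u ≤ ∑ i, β i) (h' : r * (N - 1) + W β' u' ≤ ∑ i, β' i) :
    r ∣ (∑ i, a i) - c := by
  classical
  -- positivity
  have hmodpos : ∀ i, ¬ r ∣ a i → 0 < a i % r := fun i hi => by
    have h1 := Int.emod_nonneg (a i) hr.ne'
    have h2 : a i % r ≠ 0 := fun h0 => hi (Int.dvd_of_emod_eq_zero h0)
    omega
  have hmodlt : ∀ i, a i % r < r := fun i => Int.emod_lt_of_pos _ hr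
  have hβpos : ∀ i, 0 < β i := fun i => by
    rw [hβ]; split_ifs with hd
    · exact hr
    · exact hmodpos i hd
  have hβ'pos : ∀ i, 0 < β' i := fun i => by
    rw [hβ']; split_ifs with hd
    · exact hr
    · have := hmodlt i; omega
  have hβa : ∀ i, r ∣ β i - a i := fun i => by
    rw [hβ]; split_ifs with hd
    · exact dvd_sub (dvd_refl r) hd
    · have h1 := Int.emod_add_mul_ediv (a i) r
      exact ⟨-(a i / r), by linarith⟩
  have hβ'a : ∀ i, r ∣ β' i - (- a i) := fun i => by
    rw [hβ']; split_ifs with hd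
    · have := dvd_add (dvd_refl r) hd
      simpa using this
    · have h1 := Int.emod_add_mul_ediv (a i) r
      exact ⟨1 + a i / r, by linarith⟩
  -- residues
  have hA : r ∣ W β u - c := by
    have := dvd_add (W_mod β a r hβa u) (hsemi u hu)
    simpa using this
  have hB : r ∣ W β' u' + c := by
    have h1 := W_mod β' (fun i => - a i) r hβ'a u'
    have h2 : W (fun i => - a i) u' = - W a u' := by
      unfold W; rw [← Finset.sum_neg_distrib]; exact Finset.sum_congr rfl fun i _ => by ring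
    rw [h2] at h1
    have h3 := dvd_sub h1 (hsemi u' hu')
    have h4 : W β' u' - -W a u' - (W a u' - c) = W β' u' + c := by ring
    rwa [h4] at h3
  have hsumβ : r ∣ (∑ i, β i) - ∑ i, a i := by
    rw [← Finset.sum_sub_distrib]; exact Finset.dvd_sum fun i _ => hβa i
  -- reduce the goal
  suffices hD : r ∣ (∑ i, β i) - r * (N - 1) - W β u by
    have h1 : (∑ i, a i) - c = ((∑ i, β i) - r * (N - 1) - W β u)
        - ((∑ i, β i) - ∑ i, a i) + r * (N - 1) + (W β u - c) := by ring
    rw [h1]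
    exact dvd_add (dvd_add (dvd_sub hD hsumβ) (dvd_mul_right r _)) hA
  have hmpos : ∀ m ∈ S, ∃ i, 0 < m i := fun m hm => by
    by_contra hc
    push Not at hc
    have h1 := hmult m hm
    have h2 : ∑ i, m i = 0 := Finset.sum_eq_zero fun i _ => Nat.le_zero.1 (hc i)
    omega
  have hApos := W_pos β hβpos u (hmpos u hu)
  have hBpos := W_pos β' hβ'pos u' (hmpos u' hu')
  have hAB : r ∣ W β u + W β' u' := by
    have := dvd_add hA hB
    have h1 : W β u - c + (W β' u' + c) = W β u + W β' u' := by ring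
    rwa [h1] at this
  -- the sum of all weights
  set T : Finset ι := univ.filter fun i => ¬ r ∣ a i with hT
  have hsum : (∑ i, β i) + ∑ i, β' i = r * (2 * (N + 1) - T.card) := by
    rw [← Finset.sum_add_distrib]
    have h1 : ∀ i, β i + β' i = 2 * r - (if ¬ r ∣ a i then r else 0) := fun i => by
      rw [hβ, hβ']
      by_cases hd : r ∣ a i
      · simp [hd]; ring
      · simp [hd]; ring
    rw [Finset.sum_congr rfl fun i _ => h1 i, Finset.sum_sub_distrib, ← Finset.sum_filter,
      Finset.sum_const, Finset.sum_const, ← hT]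
    simp only [nsmul_eq_mul, Finset.card_univ]
    rw [hcard]; ring
  obtain ⟨k, hk⟩ := hAB
  have hk1 : 1 ≤ k := by
    by_contra hc
    have : r * k ≤ 0 := mul_nonpos_of_nonneg_of_nonpos hr.le (by omega)
    omega
  have hle : r * k ≤ r * (4 - T.card) := by nlinarith
  have hk4 : k ≤ 4 - T.card := le_of_mul_le_mul_left hle hr
  -- the two slacks
  set D := (∑ i, β i) - r * (N - 1) - W β u with hDdef
  set D' := (∑ i, β' i) - r * (N - 1) - W β' u' with hD'def
  have hD0 : 0 ≤ D := by omega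
  have hD'0 : 0 ≤ D' := by omega
  have hDD : D + D' = r * (4 - T.card - k) := by
    have : D + D' = ((∑ i, β i) + ∑ i, β' i) - 2 * (r * (N - 1)) - (W β u + W β' u') := by
      rw [hDdef, hD'def]; ring
    rw [this, hsum, hk]; ring
  by_cases hke : k = 4 - T.card
  · have : D + D' = 0 := by rw [hDD, hke]; ring
    have hD00 : D = 0 := by omega
    rw [hD00]; exact dvd_zero r
  have hT2 : T.card ≤ 2 := by omega
  rcases Nat.lt_or_ge T.card 1 with hT0 | hT1
  · -- no non integral entry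
    have hTe : T = ∅ := Finset.card_eq_zero.1 (by omega)
    have hall : ∀ i, r ∣ a i := fun i => by
      by_contra hc
      have : i ∈ T := by rw [hT]; simp [hc]
      rw [hTe] at this; simp at this
    have h1 : r ∣ W a u := by
      unfold W; exact Finset.dvd_sum fun i _ => Dvd.dvd.mul_right (hall i) _
    have h2 : r ∣ c := by
      have := dvd_sub h1 (hsemi u hu); simpa using this
    have h3 : r ∣ ∑ i, β i := by
      refine Finset.dvd_sum fun i _ => ?_
      rw [hβ, if_pos (hall i)]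
    have h4 : r ∣ W β u := by
      have := dvd_add hA h2; simpa using this
    exact dvd_sub (dvd_sub h3 (dvd_mul_right r _)) h4
  rcases Nat.lt_or_ge T.card 2 with hT1' | hT2'
  · obtain ⟨i, hi⟩ := Finset.card_eq_one.1 (show T.card = 1 by omega)
    have hii : ¬ r ∣ a i := by
      have : i ∈ T := by rw [hi]; simp
      rw [hT] at this; simpa using this
    obtain ⟨l, hl, hl'⟩ := hrefl i hii
    have : l ∈ T := by rw [hT]; simp [hl']
    rw [hi] at this
    exact absurd (Finset.mem_singleton.1 this) hl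
  have hTc : T.card = 2 := by omega
  obtain ⟨i, j, hij, hTij⟩ := Finset.card_eq_two.1 hTc
  have hki : k = 1 := by rw [hTc] at hk4 hke; push_cast at hk4 hke; omega
  have hi : ¬ r ∣ a i := by
    have : i ∈ T := by rw [hTij]; simp
    rw [hT] at this; simpa using this
  have hj : ¬ r ∣ a j := by
    have : j ∈ T := by rw [hTij]; simp
    rw [hT] at this; simpa using this
  have hother : ∀ l, l ≠ i → l ≠ j → r ∣ a l := fun l h1 h2 => by
    by_contra hc
    have : l ∈ T := by rw [hT]; simp [hc]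
    rw [hTij] at this
    simp [h1, h2] at this
  have hβl : ∀ l, l ≠ i → l ≠ j → β l = r := fun l h1 h2 => by rw [hβ, if_pos (hother l h1 h2)]
  have hβ'l : ∀ l, l ≠ i → l ≠ j → β' l = r := fun l h1 h2 => by
    rw [hβ', if_pos (hother l h1 h2)]
  set s := β i with hs
  set t := β j with ht
  have hs0 : 0 < s := hβpos i
  have ht0 : 0 < t := hβpos j
  have hs' : β' i = r - s := by rw [hs, hβ, hβ', if_neg hi, if_neg hi]
  have ht' : β' j = r - t := by rw [ht, hβ, hβ', if_neg hj, if_neg hj]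
  have hsr : 0 < r - s := by rw [← hs']; exact hβ'pos i
  have htr : 0 < r - t := by rw [← ht']; exact hβ'pos j
  rw [hki, mul_one] at hk
  have hAr : W β u < r := by omega
  have hBr : W β' u' < r := by omega
  have hul : ∀ l, l ≠ i → l ≠ j → u l = 0 := fun l h1 h2 => by
    by_contra hc
    have h3 := le_W β hβpos u l
    rw [hβl l h1 h2] at h3
    have h4 : (1 : ℤ) ≤ u l := by exact_mod_cast Nat.one_le_iff_ne_zero.2 hc
    nlinarith
  have hul' : ∀ l, l ≠ i → l ≠ j → u' l = 0 := fun l h1 h2 => by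
    by_contra hc
    have h3 := le_W β' hβ'pos u' l
    rw [hβ'l l h1 h2] at h3
    have h4 : (1 : ℤ) ≤ u' l := by exact_mod_cast Nat.one_le_iff_ne_zero.2 hc
    nlinarith
  have hWu : W β u = s * u i + t * u j := by
    unfold W
    rw [sum_two (fun l => β l * (u l : ℤ)) hij]
    rw [Finset.sum_eq_zero (fun l hl => ?_)]
    · simp only [← hs, ← ht, add_zero]
    · rw [mem_erase, mem_erase] at hl
      rw [hul l hl.2.1 hl.1]; simp
  have hWu' : W β' u' = (r - s) * u' i + (r - t) * u' j := by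
    unfold W
    rw [sum_two (fun l => β' l * (u' l : ℤ)) hij]
    rw [Finset.sum_eq_zero (fun l hl => ?_)]
    · simp only [hs', ht', add_zero]
    · rw [mem_erase, mem_erase] at hl
      rw [hul' l hl.2.1 hl.1]; simp
  have hdeg : ∀ v : ι → ℕ, (∀ l, l ≠ i → l ≠ j → v l = 0) → ((∑ l, v l : ℕ) : ℤ) = v i + v j := by
    intro v hv
    push_cast
    rw [sum_two (fun l => (v l : ℤ)) hij, Finset.sum_eq_zero (fun l hl => ?_)]
    · ring
    · rw [mem_erase, mem_erase] at hl
      rw [hv l hl.2.1 hl.1]; simp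
  have hdu : (2 : ℤ) ≤ u i + u j := by
    rw [← hdeg u hul]; exact_mod_cast hmult u hu
  have hdu' : (2 : ℤ) ≤ u' i + u' j := by
    rw [← hdeg u' hul']; exact_mod_cast hmult u' hu'
  have hcardE : (((univ.erase i).erase j).card : ℤ) = N - 1 := by
    have h1 : ((univ.erase i).erase j).card = Fintype.card ι - 1 - 1 := by
      rw [Finset.card_erase_of_mem (mem_erase.2 ⟨hij.symm, mem_univ j⟩),
        Finset.card_erase_of_mem (mem_univ i), Finset.card_univ]
    have h2 : 2 ≤ Fintype.card ι := by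
      have : ({i, j} : Finset ι).card ≤ (univ : Finset ι).card := Finset.card_le_card (subset_univ _)
      rw [Finset.card_pair hij, Finset.card_univ] at this
      exact this
    rw [h1]; omega
  have hsβ : ∑ l, β l = s + t + r * (N - 1) := by
    rw [sum_two β hij, Finset.sum_congr rfl (fun l hl => ?_ : ∀ l ∈ _, β l = r)]
    · rw [Finset.sum_const, nsmul_eq_mul, hcardE]; ring
    · rw [mem_erase, mem_erase] at hl
      exact hβl l hl.2.1 hl.1
  have hsβ' : ∑ l, β' l = (r - s) + (r - t) + r * (N - 1) := by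
    rw [sum_two β' hij, Finset.sum_congr rfl (fun l hl => ?_ : ∀ l ∈ _, β' l = r), hs', ht']
    · rw [Finset.sum_const, nsmul_eq_mul, hcardE]; ring
    · rw [mem_erase, mem_erase] at hl
      exact hβ'l l hl.2.1 hl.1
  have hDe : D = s + t - W β u := by rw [hDdef, hsβ]; ring
  have hD'e : D' = (r - s) + (r - t) - W β' u' := by rw [hD'def, hsβ']; ring
  have hDDr : D + D' = r := by rw [hDD, hTc, hki]; push_cast; ring
  generalize hp : (u i : ℤ) = p at *
  generalize hq : (u j : ℤ) = q at *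
  generalize hp' : (u' i : ℤ) = p' at *
  generalize hq' : (u' j : ℤ) = q' at *
  have hp0 : 0 ≤ p := by rw [← hp]; positivity
  have hq0 : 0 ≤ q := by rw [← hq]; positivity
  have hp'0 : 0 ≤ p' := by rw [← hp']; positivity
  have hq'0 : 0 ≤ q' := by rw [← hq']; positivity
  by_cases hpq : 1 ≤ p ∧ 1 ≤ q
  · have : s + t ≤ W β u := by rw [hWu]; nlinarith [hpq.1, hpq.2]
    have hD00 : D = 0 := by omega
    rw [hD00]; exact dvd_zero r
  by_cases hpq' : 1 ≤ p' ∧ 1 ≤ q'
  · have : (r - s) + (r - t) ≤ W β' u' := by rw [hWu']; nlinarith [hpq'.1, hpq'.2]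
    have hD00 : D = r := by omega
    rw [hD00]
  exfalso
  -- a monomial outside `(x_i, x_j)^2`
  obtain ⟨w, hw, hwij⟩ := hnorm i j hij
  have hww : r ∣ (s * w i + t * w j) - W β u := by
    have h1 : r ∣ W β w - W β u := by
      have h2 := dvd_sub (dvd_add (W_mod β a r hβa w) (hsemi w hw)) hA
      have h3 : W β w - W a w + (W a w - c) - (W β u - c) = W β w - W β u := by ring
      rwa [h3] at h2
    have h2 : r ∣ W β w - (s * w i + t * w j) := by
      unfold W
      rw [sum_two (fun l => β l * (w l : ℤ)) hij]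
      have h4 : r ∣ ∑ l ∈ (univ.erase i).erase j, β l * (w l : ℤ) := by
        refine Finset.dvd_sum fun l hl => ?_
        rw [mem_erase, mem_erase] at hl
        rw [hβl l hl.2.1 hl.1]; exact dvd_mul_right r _
      have h5 : β i * (w i : ℤ) + β j * (w j : ℤ) + ∑ l ∈ (univ.erase i).erase j, β l * (w l : ℤ)
          - (s * w i + t * w j) = ∑ l ∈ (univ.erase i).erase j, β l * (w l : ℤ) := by
        rw [hs, ht]; ring
      rw [h5]; exact h4
    have h3 := dvd_sub h1 h2
    have h4 : W β w - W β u - (W β w - (s * w i + t * w j)) = (s * w i + t * w j) - W β u := by ring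
    rwa [h4] at h3
  have hx0 : (0 : ℤ) ≤ w i := by positivity
  have hy0 : (0 : ℤ) ≤ w j := by positivity
  have hxy : (w i : ℤ) + w j ≤ 1 := by exact_mod_cast hwij
  rcases (by omega : (2 ≤ p ∧ q = 0) ∨ (p = 0 ∧ 2 ≤ q)) with ⟨hp2, hq2⟩ | ⟨hp2, hq2⟩
  · rcases (by omega : (2 ≤ p' ∧ q' = 0) ∨ (p' = 0 ∧ 2 ≤ q')) with ⟨hp3, hq3⟩ | ⟨hp3, hq3⟩
    · rw [hWu, hWu', hq2, hq3] at hk
      nlinarith
    · rw [hWu, hWu', hq2, hp3] at hk
      rw [hWu, hq2] at hww
      refine pure_case (r := r) (s := s) (t := t) (p := p) (q' := q') (x := w i) (y := w j)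
        hs0 htr hp2 hq3 (by linarith) hx0 hy0 hxy ?_
      simpa using hww
  · rcases (by omega : (2 ≤ p' ∧ q' = 0) ∨ (p' = 0 ∧ 2 ≤ q')) with ⟨hp3, hq3⟩ | ⟨hp3, hq3⟩
    · rw [hWu, hWu', hp2, hq3] at hk
      rw [hWu, hp2] at hww
      refine pure_case (r := r) (s := t) (t := s) (p := q) (q' := p') (x := w j) (y := w i)
        ht0 hsr hq2 hp3 (by linarith) hy0 hx0 (by omega) ?_
      have h7 : t * (w j : ℤ) + s * w i - t * q = s * w i + t * w j - (s * 0 + t * q) := by ring
      rw [h7]; exact hww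
    · rw [hWu, hWu', hp2, hp3] at hk
      nlinarith

/-- the core for quotients of affine space -/
theorem core0 (N r : ℤ) (hr : 0 < r) (hcard : (Fintype.card ι : ℤ) = N)
    (a : ι → ℤ) (hrefl : ∀ i, ¬ r ∣ a i → ∃ l, l ≠ i ∧ ¬ r ∣ a l)
    (β β' : ι → ℤ)
    (hβ : ∀ i, β i = if r ∣ a i then r else a i % r)
    (hβ' : ∀ i, β' i = if r ∣ a i then r else r - a i % r)
    (h : r * (N - 1) ≤ ∑ i, β i) (h' : r * (N - 1) ≤ ∑ i, β' i) :
    r ∣ ∑ i, a i := by
  classical
  have hβa : ∀ i, r ∣ β i - a i := fun i => by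
    rw [hβ]; split_ifs with hd
    · exact dvd_sub (dvd_refl r) hd
    · have h1 := Int.emod_add_mul_ediv (a i) r
      exact ⟨-(a i / r), by linarith⟩
  have hsumβ : r ∣ (∑ i, β i) - ∑ i, a i := by
    rw [← Finset.sum_sub_distrib]; exact Finset.dvd_sum fun i _ => hβa i
  suffices hD : r ∣ (∑ i, β i) - r * (N - 1) by
    have h1 : (∑ i, a i) = ((∑ i, β i) - r * (N - 1)) - ((∑ i, β i) - ∑ i, a i)
      + r * (N - 1) := by ring
    rw [h1]
    exact dvd_add (dvd_sub hD hsumβ) (dvd_mul_right r _)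
  set T : Finset ι := univ.filter fun i => ¬ r ∣ a i with hT
  have hsum : (∑ i, β i) + ∑ i, β' i = r * (2 * N - T.card) := by
    rw [← Finset.sum_add_distrib]
    have h1 : ∀ i, β i + β' i = 2 * r - (if ¬ r ∣ a i then r else 0) := fun i => by
      rw [hβ, hβ']
      by_cases hd : r ∣ a i
      · simp [hd]; ring
      · simp [hd]; ring
    rw [Finset.sum_congr rfl fun i _ => h1 i, Finset.sum_sub_distrib, ← Finset.sum_filter,
      Finset.sum_const, Finset.sum_const, ← hT]
    simp only [nsmul_eq_mul, Finset.card_univ]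
    rw [hcard]; ring
  have hle : r * T.card ≤ r * 2 := by nlinarith
  have hc2 : (T.card : ℤ) ≤ 2 := le_of_mul_le_mul_left hle hr
  rcases (by omega : T.card = 0 ∨ T.card = 1 ∨ T.card = 2) with h0 | h1 | h2
  · have hTe : T = ∅ := Finset.card_eq_zero.1 h0
    have hall : ∀ i, r ∣ a i := fun i => by
      by_contra hc
      have : i ∈ T := by rw [hT]; simp [hc]
      rw [hTe] at this; simp at this
    refine dvd_sub (Finset.dvd_sum fun i _ => ?_) (dvd_mul_right r _)
    rw [hβ, if_pos (hall i)]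
  · obtain ⟨i, hi⟩ := Finset.card_eq_one.1 h1
    have hii : ¬ r ∣ a i := by
      have : i ∈ T := by rw [hi]; simp
      rw [hT] at this; simpa using this
    obtain ⟨l, hl, hl'⟩ := hrefl i hii
    have : l ∈ T := by rw [hT]; simp [hl']
    rw [hi] at this
    exact absurd (Finset.mem_singleton.1 this) hl
  · rw [h2] at hsum
    have : (∑ i, β i) - r * (N - 1) = 0 := by
      push_cast at hsum
      nlinarith
    rw [this]; exact dvd_zero r

end Pool.Agent.HYQ83
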